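import Pool.Agent.R853.WNH.Main
import Pool.Agent.R853.WNH.Defs

/-!
Every weakly numerically hypercyclic operator on `ℂ ^ n` satisfies one of the four spectral
conditions.
-/

set_option autoImplicit false

namespace Pool.Agent.Results.MP_fe3f7a_an.Spectral

open Pool.Agent.R853.NH

universe u

theorem result (n : ℕ) (T : EuclideanSpace ℂ (Fin n) →L[ℂ] EuclideanSpace ℂ (Fin n))
    (hT : WeaklyNumHyp.{u} T) : C1 T ∨ C2 T ∨ C3 T ∨ C4 T := by
  obtain ⟨Y, _, _, _, S, J, ⟨y, g, -, -, -, hd⟩, hJ⟩ := hT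
  have hpow : ∀ (k : ℕ) (x : EuclideanSpace ℂ (Fin n)), J ((T ^ k) x) = (S ^ k) (J x) := by
    intro k
    induction k with
    | zero => intro x; simp
    | succ k ih =>
      intro x
      rw [pow_succ, pow_succ]
      show J ((T ^ k) (T x)) = (S ^ k) (S (J x))
      rw [ih, hJ]
  have hlin : ∀ (k : ℕ) (x : EuclideanSpace ℂ (Fin n)),
      ((T : Module.End ℂ (EuclideanSpace ℂ (Fin n))) ^ k) x = (T ^ k) x := by
    intro k
    induction k with
    | zero => intro x; simp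
    | succ k ih =>
      intro x
      rw [pow_succ, pow_succ]
      exact ih (T x)
  have hE : ∀ l : ℂ, Module.End.HasEigenvalue (T : Module.End ℂ (EuclideanSpace ℂ (Fin n))) l →
      IsEig T l := by
    intro l hl
    obtain ⟨x, hx⟩ := hl.exists_hasEigenvector
    exact ⟨x, hx.2, Module.End.mem_eigenspace_iff.1 hx.1⟩
  have hK : ∀ l : ℂ, Pool.Agent.R853.WNH.Blk (T : Module.End ℂ (EuclideanSpace ℂ (Fin n))) l →
      KerNe T l := by
    rintro l ⟨x, h1, h2⟩ h3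
    have h4 : x ∈ {x : EuclideanSpace ℂ (Fin n) | ((T - l • (1 : EuclideanSpace ℂ (Fin n) →L[ℂ]
        EuclideanSpace ℂ (Fin n))) ^ 2) x = 0} := by
      show ((T - l • (1 : EuclideanSpace ℂ (Fin n) →L[ℂ] EuclideanSpace ℂ (Fin n))) ^ 2) x = 0
      rw [sq]
      exact h1
    rw [h3] at h4
    exact h2 h4
  have hmain := Pool.Agent.R853.WNH.main (T : Module.End ℂ (EuclideanSpace ℂ (Fin n)))
    ((g : Y →ₗ[ℂ] ℂ) ∘ₗ (J : EuclideanSpace ℂ (Fin n) →ₗ[ℂ] Y)) (J.symm y) (by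
      refine hd.mono ?_
      rintro _ ⟨k, rfl⟩
      refine ⟨k, ?_⟩
      show g (J (((T : Module.End ℂ (EuclideanSpace ℂ (Fin n))) ^ k) (J.symm y))) = g ((S ^ k) y)
      rw [hlin, hpow, ContinuousLinearEquiv.apply_symm_apply])
  rcases hmain with h | h | h | h
  · obtain ⟨l, m, h1, h2, h3, h4, h5⟩ := h
    exact Or.inl ⟨l, m, hE l h1, hE m h2, h3, h4, h5⟩
  · obtain ⟨l, m, h1, h2, h3, h4, h5⟩ := h
    exact Or.inr (Or.inl ⟨l, m, h1, h2, h3, hK l h4, hK m h5⟩)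
  · obtain ⟨l, m, k, h1, h2, h3, h4, h5, h6, h7, h8⟩ := h
    exact Or.inr (Or.inr (Or.inl ⟨l, m, k, hE l h1, hE m h2, hE k h3, h4, h5, h6, h7, h8⟩))
  · obtain ⟨l, m, k, h1, h2, h3, h4, h5, h6, h7, h8⟩ := h
    exact Or.inr (Or.inr (Or.inr ⟨l, m, k, hE l h1, hE m h2, h3, hK k h4, h5, h6, h7, h8⟩))

end Pool.Agent.Results.MP_fe3f7a_an.Spectral
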